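import Pool.Agent.Lib.MP_238ec1_gt.Cdga

/-!
Let `(ℚ[x₁, …, x_r] ⊗ K, D)` be a commutative differential graded algebra (`deg xᵢ = 2`,
`D xᵢ = 0`, `r ≥ 4`) with finite-dimensional cohomology, and let `(K, d)` be its fibre. Then
`dim H(K, d) ≥ 4 r` for even `r` and `dim H(K, d) ≥ 4 r - 2` for odd `r`. For `r = 4` this is the
bound `2 ^ r`.
-/

set_option autoImplicit false

namespace Pool.Agent.Results.MP_238ec1_gt.CdgaBound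

open MvPolynomial TensorProduct Pool.Agent.Toral

theorem result (r : ℕ) (hr : 4 ≤ r) (K : Type) [Ring K] [Algebra ℚ K] [Nontrivial K]
    (𝒜 : ℕ → Submodule ℚ K) [GradedAlgebra 𝒜]
    (hcomm : ∀ i j, ∀ a ∈ 𝒜 i, ∀ b ∈ 𝒜 j, a * b = (-1 : ℚ) ^ (i * j) • (b * a))
    (D : MvPolynomial (Fin r) ℚ ⊗[ℚ] K →ₗ[MvPolynomial (Fin r) ℚ] MvPolynomial (Fin r) ℚ ⊗[ℚ] K)
    (hdeg : ∀ i, ∀ a ∈ 𝒜 i, D (1 ⊗ₜ[ℚ] a) ∈ Submodule.span ℚ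
      {z : MvPolynomial (Fin r) ℚ ⊗[ℚ] K | ∃ (m : Fin r →₀ ℕ) (j : ℕ), ∃ b ∈ 𝒜 j,
        2 * (∑ l, m l) + j = i + 1 ∧ z = MvPolynomial.monomial m (1 : ℚ) ⊗ₜ[ℚ] b})
    (hleib : ∀ i j, ∀ a ∈ 𝒜 i, ∀ b ∈ 𝒜 j, D (1 ⊗ₜ[ℚ] (a * b))
      = D (1 ⊗ₜ[ℚ] a) * (1 ⊗ₜ[ℚ] b) + (-1 : ℚ) ^ i • ((1 ⊗ₜ[ℚ] a) * D (1 ⊗ₜ[ℚ] b)))
    (hDD : ∀ x, D (D x) = 0)
    (hfin : Module.Finite ℚ ((LinearMap.ker D).map (LinearMap.range D).mkQ))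
    (d : K →ₗ[ℚ] K)
    (hd : ∀ a, d a = TensorProduct.lid ℚ K
      (LinearMap.rTensor K (MvPolynomial.lcoeff ℚ 0) (D (1 ⊗ₜ[ℚ] a)))) :
    ((4 * r - 2 * (r % 2) : ℕ) : Cardinal)
      ≤ Module.rank ℚ ((LinearMap.ker d).map (LinearMap.range d).mkQ) := by
  by_cases h : Module.Finite ℚ ((LinearMap.ker d).map (LinearMap.range d).mkQ)
  · have := cdga_bound (σ := Fin r) (by simpa using hr) hcomm hdeg hleib (LinearMap.ext hDD) hd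
      hfin
    rw [Fintype.card_fin] at this
    rw [← Module.finrank_eq_rank, Nat.cast_le]
    omega
  · rw [← Module.rank_lt_aleph0_iff, not_lt] at h
    exact Cardinal.natCast_lt_aleph0.le.trans h

end Pool.Agent.Results.MP_238ec1_gt.CdgaBound
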