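import Pool.Agent.Lib.MP_238ec1_gt.Main

/-!
A minimal free differential graded module over `ℚ[x₁, …, x_r]` (`deg xᵢ = 2`, `r ≥ 4`) with
finite-dimensional homology has rank at least `4 r - 2`.
-/

set_option autoImplicit false

namespace Pool.Agent.Results.MP_238ec1_gt.ModuleBound

open MvPolynomial Pool.Agent.Toral

theorem result (r : ℕ) (hr : 4 ≤ r) (ι : Type) [Fintype ι] [Nonempty ι] (deg : ι → ℕ)
    (D : Matrix ι ι (MvPolynomial (Fin r) ℚ))
    (hdeg : ∀ i j, ∀ m ∈ (D i j).support, 2 * (∑ a, m a) + deg i = deg j + 1)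
    (hmin : ∀ i j, MvPolynomial.constantCoeff (D i j) = 0) (hDD : D * D = 0)
    (hfin : Module.Finite ℚ (LinearMap.ker D.mulVecLin ⧸
      (LinearMap.range D.mulVecLin).submoduleOf (LinearMap.ker D.mulVecLin))) :
    4 * r - 2 ≤ Fintype.card ι := by
  classical
  have key : ∀ i j, D i j ≠ 0 → ∃ s, 1 ≤ s ∧ 2 * s + deg i = deg j + 1 := by
    intro i j h
    obtain ⟨m, hm⟩ := ne_zero_iff.1 h
    refine ⟨∑ a, m a, Nat.pos_of_ne_zero fun h0 => hm ?_, hdeg i j m (mem_support_iff.2 hm)⟩
    have : m = 0 := Finsupp.ext fun a => Finset.sum_eq_zero_iff.1 h0 a (Finset.mem_univ a)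
    rw [this]
    exact hmin i j
  obtain ⟨u, -, hu⟩ := Finset.exists_min_image Finset.univ deg Finset.univ_nonempty
  obtain ⟨τ, -, hτ⟩ := Finset.exists_max_image Finset.univ deg Finset.univ_nonempty
  have := (main_split (σ := Fin r) (D := D) (P := fun i => deg i % 2 = deg u % 2)
    (Q := fun i => ¬ deg i % 2 = deg u % 2) (by simpa using hr) (fun _ => Iff.rfl)
    (fun i j hi hj => by
      by_contra h
      obtain ⟨s, -, hs⟩ := key i j h
      omega)
    (fun i j hi hj => by
      by_contra h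
      obtain ⟨s, -, hs⟩ := key i j h
      omega) hDD hmin (u := u) (τ := τ) rfl
    (fun i => by
      by_contra h
      obtain ⟨s, s1, hs⟩ := key i u h
      have := hu i (Finset.mem_univ _)
      omega)
    (fun j => by
      by_contra h
      obtain ⟨s, s1, hs⟩ := key τ j h
      have := hτ j (Finset.mem_univ _)
      omega)).1
  rw [Fintype.card_fin] at this
  omega

end Pool.Agent.Results.MP_238ec1_gt.ModuleBound
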