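import Pool.Agent.Lib.MP_238ec1_gt.SpGlue

/-!
If a torus of rank `r ≥ 4` acts almost freely on a nonempty finite-dimensional CW complex, the sum
of the rational Betti numbers is at least `4 r` for even `r` and at least `4 r - 2` for odd `r`.
For `r = 4` this is the bound `2 ^ r`.
-/

set_option autoImplicit false

namespace Pool.Agent.Results.MP_238ec1_gt.SpaceBound

theorem result (X : Type) [TopologicalSpace X] [T2Space X] [Nonempty X]
    [Topology.CWComplex (Set.univ : Set X)]
    [Topology.RelCWComplex.FiniteDimensional (Set.univ : Set X)]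
    (r : ℕ) (hr : 4 ≤ r) [MulAction (Fin r → Circle) X] [ContinuousSMul (Fin r → Circle) X]
    (hfin : ∀ x : X, (MulAction.stabilizer (Fin r → Circle) x : Set (Fin r → Circle)).Finite) :
    ((4 * r - 2 * (r % 2) : ℕ) : Cardinal.{0}) ≤
      Cardinal.sum (fun i : ℕ =>
        Module.rank ℚ
          (((AlgebraicTopology.singularHomologyFunctor (ModuleCat.{0} ℚ) i).obj
            (ModuleCat.of ℚ ℚ)).obj (TopCat.of X))) := by
  have := Pool.Agent.ToralSp.space_bound (X := X) (σ := Fin r) (by simpa using hr) hfin
  rwa [Fintype.card_fin] at this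

end Pool.Agent.Results.MP_238ec1_gt.SpaceBound
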